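import Pool.Agent.Y262.EX.Stm

/-!
# Project EX: the curvature of the metric
-/

set_option autoImplicit false

open Set Filter Topology MeasureTheory
open scoped ContDiff ComplexConjugate Real

noncomputable section

namespace Pool.Agent.Y993.EX

open Pool.Agent.Y262.EG Pool.Agent.Y262.EX

lemma fderiv_re {φ : ℂ → ℝ} {h : ℝ → ℝ} {w : ℂ} (hφ : φ =ᶠ[𝓝 w] fun u => h u.re)
    (hd : DifferentiableAt ℝ h w.re) (v : ℂ) : fderiv ℝ φ w v = deriv h w.re * v.re := by
  rw [hφ.fderiv_eq]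
  have h1 : HasFDerivAt (fun u : ℂ => h u.re) (deriv h w.re • Complex.reCLM) w :=
    hd.hasDerivAt.comp_hasFDerivAt w Complex.reCLM.hasFDerivAt
  rw [h1.fderiv]
  simp

lemma curv_re {φ : ℂ → ℝ} {h : ℝ → ℝ} {z : ℂ} (hφ : φ =ᶠ[𝓝 z] fun u => h u.re)
    (hd : ∀ᶠ x in 𝓝 z.re, DifferentiableAt ℝ h x) (hd2 : DifferentiableAt ℝ (deriv h) z.re) :
    curv φ z = -(Real.exp (-2 * h z.re) * deriv (deriv h) z.re) := by
  have hre : Tendsto Complex.re (𝓝 z) (𝓝 z.re) := Complex.continuous_re.continuousAt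
  have h1 : ∀ᶠ w in 𝓝 z, (φ =ᶠ[𝓝 w] fun u => h u.re) ∧ DifferentiableAt ℝ h w.re :=
    (eventually_eventually_nhds.mpr hφ).and (hre.eventually hd)
  have hx : px φ =ᶠ[𝓝 z] fun u => (deriv h) u.re := by
    filter_upwards [h1] with w hw
    show fderiv ℝ φ w 1 = _
    rw [fderiv_re hw.1 hw.2]; simp
  have hy : py φ =ᶠ[𝓝 z] fun _ => (0 : ℝ) := by
    filter_upwards [h1] with w hw
    show fderiv ℝ φ w Complex.I = _
    rw [fderiv_re hw.1 hw.2]; simp
  have e1 : px (px φ) z = deriv (deriv h) z.re := by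
    show fderiv ℝ (px φ) z 1 = _
    rw [fderiv_re hx hd2]; simp
  have e2 : py (py φ) z = 0 := by
    show fderiv ℝ (py φ) z Complex.I = _
    rw [hy.fderiv_eq]; simp
  unfold curv
  rw [e1, e2, hφ.self_of_nhds, add_zero]

/-- the strip in terms of the real part -/
lemma dF {x : ℝ} (hc : 0 < Real.cos (lam * (x - L0 / 2))) (c : ℝ) :
    HasDerivAt (fun x => F0 x + c)
      (lam * (Real.sin (lam * (x - L0 / 2)) / Real.cos (lam * (x - L0 / 2)))) x := by
  have h1 : HasDerivAt (fun x : ℝ => lam * (x - L0 / 2)) lam x := by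
    simpa using ((hasDerivAt_id x).sub_const (L0 / 2)).const_mul lam
  have h2 := ((h1.cos.log hc.ne').neg).add_const c
  refine h2.congr_deriv ?_
  field_simp

lemma ddF {x : ℝ} (hc : 0 < Real.cos (lam * (x - L0 / 2))) :
    HasDerivAt (fun x => lam * (Real.sin (lam * (x - L0 / 2)) / Real.cos (lam * (x - L0 / 2))))
      (lam ^ 2 / Real.cos (lam * (x - L0 / 2)) ^ 2) x := by
  have h1 : HasDerivAt (fun x : ℝ => lam * (x - L0 / 2)) lam x := by
    simpa using ((hasDerivAt_id x).sub_const (L0 / 2)).const_mul lam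
  have h2 := (h1.sin.div h1.cos hc.ne').const_mul lam
  refine h2.congr_deriv ?_
  have h3 := Real.sin_sq_add_cos_sq (lam * (x - L0 / 2))
  rw [← mul_div_assoc]
  congr 1
  linear_combination lam ^ 2 * h3

lemma cosnear {x : ℝ} (hc : 0 < Real.cos (lam * (x - L0 / 2))) :
    ∀ᶠ y in 𝓝 x, 0 < Real.cos (lam * (y - L0 / 2)) := by
  have h : ContinuousAt (fun y => Real.cos (lam * (y - L0 / 2))) x := by fun_prop
  exact h.eventually (lt_mem_nhds hc)

lemma derF {x : ℝ} (hc : 0 < Real.cos (lam * (x - L0 / 2))) (c : ℝ) :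
    (deriv fun x => F0 x + c) =ᶠ[𝓝 x]
      fun x => lam * (Real.sin (lam * (x - L0 / 2)) / Real.cos (lam * (x - L0 / 2))) := by
  filter_upwards [cosnear hc] with y hy
  exact (dF hy c).deriv

lemma derderF {x : ℝ} (hc : 0 < Real.cos (lam * (x - L0 / 2))) (c : ℝ) :
    deriv (deriv fun x => F0 x + c) x = lam ^ 2 / Real.cos (lam * (x - L0 / 2)) ^ 2 := by
  rw [(derF hc c).deriv_eq, (ddF hc).deriv]

lemma expF {x : ℝ} (hc : 0 < Real.cos (lam * (x - L0 / 2))) (c : ℝ) :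
    Real.exp (-2 * (F0 x + c)) * (lam ^ 2 / Real.cos (lam * (x - L0 / 2)) ^ 2) =
      lam ^ 2 * Real.exp (-2 * c) := by
  have h1 : Real.exp (-2 * (F0 x + c)) = Real.cos (lam * (x - L0 / 2)) ^ 2 * Real.exp (-2 * c) := by
    unfold F0
    have : -2 * (-Real.log (Real.cos (lam * (x - L0 / 2))) + c) =
      Real.log (Real.cos (lam * (x - L0 / 2))) + Real.log (Real.cos (lam * (x - L0 / 2))) +
        -2 * c := by ring
    rw [this, Real.exp_add, Real.exp_add, Real.exp_log hc]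
    ring
  rw [h1]
  have h3 : Real.cos (lam * (x - L0 / 2)) ^ 2 ≠ 0 := by positivity
  generalize Real.cos (lam * (x - L0 / 2)) ^ 2 = a at h3 ⊢
  field_simp

theorem phi3 (hW : StW) (hAc : StAc) (hG : StGerm) (h1 : StPhi1) (h2 : StPhi2) : StPhi3 := by
  intro g c1 C hg
  obtain ⟨hL, hlam, -, -, -, -, hOm, -⟩ := hW
  obtain ⟨-, p2, p3, p4⟩ := h1 g c1 C hg
  obtain ⟨hInv, -⟩ := h2 g c1 C hg
  have hIo : IsOpen (Ioo (-(7 / 2 * L0)) (9 / 2 * L0)) := isOpen_Ioo
  have hcos : ∀ x ∈ Ioo (-(7 / 2 * L0)) (9 / 2 * L0), 0 < Real.cos (lam * (x - L0 / 2)) := by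
    intro x hx
    have hz : (x : ℂ) ∈ Om := by
      show -(7 / 2 * L0) < (x : ℂ).re ∧ (x : ℂ).re < 9 / 2 * L0
      simpa using hx
    rw [hOm] at hz
    have hz' : |lam * (x - L0 / 2)| < π / 2 := by simpa using hz
    exact Real.cos_pos_of_mem_Ioo ⟨by linarith [(abs_lt.mp hz').1], (abs_lt.mp hz').2⟩
  have hd1 : ContDiffOn ℝ ∞ (deriv g) (Ioo (-(7 / 2 * L0)) (9 / 2 * L0)) :=
    hg.smooth.deriv_of_isOpen hIo (by simp)
  have hd2 : ContDiffOn ℝ ∞ (deriv (deriv g)) (Ioo (-(7 / 2 * L0)) (9 / 2 * L0)) :=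
    hd1.deriv_of_isOpen hIo (by simp)
  have hgd : ∀ x ∈ Ioo (-(7 / 2 * L0)) (9 / 2 * L0), DifferentiableAt ℝ g x := fun x hx =>
    (hg.smooth.differentiableOn (by simp)).differentiableAt (hIo.mem_nhds hx)
  have hgd1 : ∀ x ∈ Ioo (-(7 / 2 * L0)) (9 / 2 * L0), DifferentiableAt ℝ (deriv g) x := fun x hx =>
    (hd1.differentiableOn (by simp)).differentiableAt (hIo.mem_nhds hx)
  have hgc2 : ∀ x ∈ Ioo (-(7 / 2 * L0)) (9 / 2 * L0), ContinuousAt (deriv (deriv g)) x :=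
    fun x hx => hd2.continuousOn.continuousAt (hIo.mem_nhds hx)
  have hSO : IsOpen (Stp L0 (3 / 2 * L0)) := by
    have e : Stp L0 (3 / 2 * L0) = Complex.re ⁻¹' Ioo (-(3 / 2 * L0)) (L0 + 3 / 2 * L0) := rfl
    rw [e]; exact isOpen_Ioo.preimage Complex.continuous_re
  have hA : ∀ z ∈ Stp L0 (3 / 2 * L0), curv (phi g c1) z =
      -(Real.exp (-2 * g z.re) * deriv (deriv g) z.re) := by
    intro z hz
    have hzI : z.re ∈ Ioo (-(7 / 2 * L0)) (9 / 2 * L0) := ⟨by linarith [hz.1], by linarith [hz.2]⟩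
    refine curv_re ?_ ?_ (hgd1 _ hzI)
    · filter_upwards [hSO.mem_nhds hz] with w hw using p2 w hw
    · filter_upwards [hIo.mem_nhds hzI] with x hx using hgd x hx
  refine ⟨hA, ?_⟩
  -- the second derivative of the profile outside
  have hE : ∀ x ∈ Ioo (-(7 / 2 * L0)) (9 / 2 * L0), L0 < |x - L0 / 2| →
      deriv (deriv g) x = lam ^ 2 / Real.cos (lam * (x - L0 / 2)) ^ 2 := by
    intro x hx hx2
    have hev : g =ᶠ[𝓝 x] fun x => F0 x + c1 := by
      have hc : ContinuousAt (fun y => |y - L0 / 2|) x := by fun_prop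
      filter_upwards [hIo.mem_nhds hx, hc.eventually (lt_mem_nhds hx2)] with y hy hy2
      exact hg.hyp y hy hy2.le
    rw [hev.deriv.deriv_eq, derderF (hcos x hx)]
  have hE' : ∀ x ∈ Ioo (-(7 / 2 * L0)) (9 / 2 * L0), L0 ≤ |x - L0 / 2| →
      deriv (deriv g) x = lam ^ 2 / Real.cos (lam * (x - L0 / 2)) ^ 2 := by
    intro x hx hx2
    have hcR : ContinuousAt (fun y => lam ^ 2 / Real.cos (lam * (y - L0 / 2)) ^ 2) x := by
      have := (hcos x hx).ne'
      have : Real.cos (lam * (x - L0 / 2)) ^ 2 ≠ 0 := by positivity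
      fun_prop (disch := assumption)
    rcases le_abs.mp hx2 with h | h
    · have hev : deriv (deriv g) =ᶠ[𝓝[>] x]
          fun y => lam ^ 2 / Real.cos (lam * (y - L0 / 2)) ^ 2 := by
        filter_upwards [mem_nhdsWithin_of_mem_nhds (hIo.mem_nhds hx), self_mem_nhdsWithin]
          with y hy hy2
        exact hE y hy (lt_abs.mpr (Or.inl (by linarith [show x < y from hy2])))
      exact tendsto_nhds_unique (((hgc2 x hx).tendsto.mono_left nhdsWithin_le_nhds).congr' hev)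
        (hcR.tendsto.mono_left nhdsWithin_le_nhds)
    · have hev : deriv (deriv g) =ᶠ[𝓝[<] x]
          fun y => lam ^ 2 / Real.cos (lam * (y - L0 / 2)) ^ 2 := by
        filter_upwards [mem_nhdsWithin_of_mem_nhds (hIo.mem_nhds hx), self_mem_nhdsWithin]
          with y hy hy2
        exact hE y hy (lt_abs.mpr (Or.inr (by linarith [show y < x from hy2])))
      exact tendsto_nhds_unique (((hgc2 x hx).tendsto.mono_left nhdsWithin_le_nhds).congr' hev)
        (hcR.tendsto.mono_left nhdsWithin_le_nhds)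
  intro z hz hno
  by_cases hno2 : ∀ γ : Gq, ac γ z ∉ Stp L0 (3 / 2 * L0)
  · have hzI : z.re ∈ Ioo (-(7 / 2 * L0)) (9 / 2 * L0) := hz
    rw [curv_re (h := fun x => F0 x + c1) (p4 z hz hno2) ?_ ?_, derderF (hcos _ hzI) c1,
      expF (hcos _ hzI)]
    · filter_upwards [cosnear (hcos _ hzI)] with y hy using (dF hy c1).differentiableAt
    · exact ((ddF (hcos _ hzI)).congr_of_eventuallyEq (derF (hcos _ hzI) c1)).differentiableAt
  · push Not at hno2
    obtain ⟨γ, hγ⟩ := hno2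
    have hOmO : IsOpen Om := by
      have e : Om = Complex.re ⁻¹' Ioo (-(7 / 2 * L0)) (9 / 2 * L0) := rfl
      rw [e]; exact isOpen_Ioo.preimage Complex.continuous_re
    obtain ⟨r, hr, hball⟩ := Metric.isOpen_iff.mp hOmO z hz
    have hgm := (hG Om (phi g c1) z r (ac γ) hOmO hInv.1 hr hball
      (fun ζ hζ => ((hAc.1 γ ζ (hball hζ)).2.2.2.1).differentiableWithinAt)
      (fun ζ hζ => ⟨(hAc.1 γ ζ (hball hζ)).1, (hInv.2 γ ζ (hball hζ)).1,
        (hInv.2 γ ζ (hball hζ)).2⟩)).1 z (Metric.mem_ball_self hr)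
    rw [← hgm, hA _ hγ]
    have hzI : (ac γ z).re ∈ Ioo (-(7 / 2 * L0)) (9 / 2 * L0) :=
      ⟨by linarith [hγ.1], by linarith [hγ.2]⟩
    have hab : L0 ≤ |(ac γ z).re - L0 / 2| := by
      by_contra hcon
      push Not at hcon
      have := abs_lt.mp hcon
      exact hno γ ⟨by linarith [this.1], by linarith [this.2]⟩
    rw [hE' _ hzI hab, hg.hyp _ hzI hab, expF (hcos _ hzI)]

end Pool.Agent.Y993.EX
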